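import Mathlib
import Pool.Agent.Run7.h519.AffDefs
import Pool.Agent.Run7.h519.AffExist
import Pool.Agent.Run7.h519.AffFin

/-!
# Assouad and lower dimensions of self-affine sets with random translations

There are ten invertible linear maps `A i` of the plane with norms less than `1/2` such that the
attractor `F_t` of the maps `x ↦ A i x + t i` satisfies: for a set of translation vectors `t` of
positive Lebesgue measure the lower dimension of `F_t` differs from the Assouad dimension, and
neither is there a constant which is the lower dimension of `F_t` for almost every `t`.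
-/

namespace Pool.Agent.Results.MP_b039ef_an.NotConstant

open Run7.h519 MeasureTheory
open scoped ENNReal

theorem result :
    ∃ A : Fin 10 → EuclideanSpace ℝ (Fin 2) →L[ℝ] EuclideanSpace ℝ (Fin 2),
      (∀ i, IsUnit (A i)) ∧ (∀ i, ‖A i‖ < 1 / 2) ∧ (∀ t, ∃! F, IsAttractor A t F) ∧
      0 < volume {t : Fin 10 → EuclideanSpace ℝ (Fin 2) |
        ∃ F, IsAttractor A t F ∧ lowerDim F ≤ 1 ∧ 2 ≤ assouadDim F} ∧
      0 < volume {t : Fin 10 → EuclideanSpace ℝ (Fin 2) |
        ∃ F, IsAttractor A t F ∧ assouadDim F ≠ lowerDim F} ∧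
      ¬ ∃ b : ℝ≥0∞, ∀ᵐ t : Fin 10 → EuclideanSpace ℝ (Fin 2),
        ∀ F, IsAttractor A t F → lowerDim F = b := by
  have hex := fun t => existsUnique_attractor AA AA_norm t
  have h1 : ∀ t ∈ UU (-(1 / 10)), ∀ F, IsAttractor AA t F → lowerDim F ≤ 1 ∧ 2 ≤ assouadDim F :=
    fun t ht F hF => ⟨lowerDim_le_one hF ht, two_le_assouadDim (QQ_sub hF ht)⟩
  refine ⟨AA, AA_unit, AA_norm, hex, ?_, ?_, ?_⟩
  · refine (volume_UU (-(1 / 10))).trans_le (measure_mono fun t ht => ?_)
    obtain ⟨F, hF, -⟩ := hex t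
    exact ⟨F, hF, h1 t ht F hF⟩
  · refine (volume_UU (-(1 / 10))).trans_le (measure_mono fun t ht => ?_)
    obtain ⟨F, hF, -⟩ := hex t
    refine ⟨F, hF, fun h => ?_⟩
    obtain ⟨h2, h3⟩ := h1 t ht F hF
    rw [h] at h3
    exact absurd (h3.trans h2) (by norm_num)
  · rintro ⟨b, hb⟩
    have hnull : ∀ U : Set (Fin 10 → EuclideanSpace ℝ (Fin 2)), 0 < volume U →
        ∃ t ∈ U, ∀ F, IsAttractor AA t F → lowerDim F = b := by
      intro U hU
      by_contra hcon
      push Not at hcon
      have hsub : U ⊆ {t | ¬ ∀ F, IsAttractor AA t F → lowerDim F = b} := by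
        intro t ht hall
        obtain ⟨F, hF, hne⟩ := hcon t ht
        exact hne (hall F hF)
      exact absurd (measure_mono_null hsub hb) hU.ne'
    obtain ⟨t, ht, htb⟩ := hnull _ (volume_UU (-(1 / 10)))
    obtain ⟨s, hs, hsb⟩ := hnull _ (volume_UU (3 / 10))
    obtain ⟨F, hF, -⟩ := hex t
    obtain ⟨G, hG, -⟩ := hex s
    have e1 := (h1 t ht F hF).1
    have e2 := two_le_lowerDim hG hs
    rw [htb F hF] at e1
    rw [hsb G hG] at e2
    exact absurd (e2.trans e1) (by norm_num)

end Pool.Agent.Results.MP_b039ef_an.NotConstant
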